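import Pool.Agent.Helper11.PK.Defs

/-! # Residual finiteness `p` of groups with a truncated integral Magnus system (packet RESP) -/

namespace Pool.Agent.Helper93.PK

open Pool.Agent.Helper11.PC Pool.Agent.Helper11.PK

universe u v w

/-- The coefficients of the identity. -/
theorem magnus_one {X : Type v} {Γ : Type u} [Group Γ] {D : ℕ} {c : Γ → List X → ℚ}
    (h : MagnusSys X (fun k => k ≤ D) Γ c) :
    ∀ (n : ℕ) (v : List X), v.length = n → v ≠ [] → v.length ≤ D → c 1 v = 0 := by
  intro n
  induction n using Nat.strong_induction_on with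
  | _ n ih =>
    intro v hn hv hD
    have hl : 0 < v.length := List.length_pos_iff.2 hv
    have h1 := h.mul 1 1 v hD
    rw [mul_one, Finset.sum_range_succ, List.take_length, List.drop_length, h.nil, mul_one] at h1
    obtain ⟨l, hl'⟩ : ∃ l, v.length = l + 1 := ⟨v.length - 1, by omega⟩
    rw [hl', Finset.sum_range_succ', List.take_zero, List.drop_zero, h.nil, one_mul] at h1
    have h2 : ∑ k ∈ Finset.range l, c 1 (v.take (k + 1)) * c 1 (v.drop (k + 1)) = 0 := by
      apply Finset.sum_eq_zero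
      intro k hk
      have hk' := Finset.mem_range.1 hk
      have h3 : (v.take (k + 1)).length = k + 1 := by
        rw [List.length_take]; omega
      rw [ih (k + 1) (by omega) (v.take (k + 1)) h3 (by
        intro h4; rw [h4] at h3; simp at h3) (by omega), zero_mul]
    rw [h2] at h1
    linarith

section

variable {X : Type v} {Γ : Type u} [Group Γ] {D N : ℕ} {X0 : Set X} {a : Γ → List X → ZMod N}
  (hmul : ∀ g h v, v.length ≤ D →
    a (g * h) v = ∑ i ∈ Finset.range (v.length + 1), a g (v.take i) * a h (v.drop i))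
  (hnil : ∀ g, a g [] = 1) (hone : ∀ v, v ≠ [] → v.length ≤ D → a 1 v = 0)

include hmul hnil in
theorem right_eq {g : Γ} (t : Γ)
    (hg : ∀ v : List X, v ≠ [] → v.length ≤ D → (∀ x ∈ v, x ∈ X0) → a g v = 0)
    (v : List X) (hD : v.length ≤ D) (hX : ∀ x ∈ v, x ∈ X0) : a (t * g) v = a t v := by
  rw [hmul t g v hD, Finset.sum_range_succ, List.take_length, List.drop_length, hnil, mul_one]
  rw [Finset.sum_eq_zero, zero_add]
  intro i hi
  have hi' := Finset.mem_range.1 hi
  have hlen : (v.drop i).length = v.length - i := List.length_drop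
  rw [hg (v.drop i) (by intro h4; rw [h4] at hlen; simp at hlen; omega) (by omega)
    (fun x hx => hX x (List.mem_of_mem_drop hx)), mul_zero]

include hmul in
theorem congr_right {t g h : Γ}
    (hgh : ∀ v : List X, v.length ≤ D → (∀ x ∈ v, x ∈ X0) → a g v = a h v)
    (v : List X) (hD : v.length ≤ D) (hX : ∀ x ∈ v, x ∈ X0) : a (t * g) v = a (t * h) v := by
  rw [hmul t g v hD, hmul t h v hD]
  apply Finset.sum_congr rfl
  intro i _
  have hlen : (v.drop i).length = v.length - i := List.length_drop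
  rw [hgh (v.drop i) (by omega) (fun x hx => hX x (List.mem_of_mem_drop hx))]

include hmul in
theorem congr_left {t g h : Γ}
    (hgh : ∀ v : List X, v.length ≤ D → (∀ x ∈ v, x ∈ X0) → a g v = a h v)
    (v : List X) (hD : v.length ≤ D) (hX : ∀ x ∈ v, x ∈ X0) : a (g * t) v = a (h * t) v := by
  rw [hmul g t v hD, hmul h t v hD]
  apply Finset.sum_congr rfl
  intro i _
  have hlen : (v.take i).length ≤ v.length := by rw [List.length_take]; omega
  rw [hgh (v.take i) (by omega) (fun x hx => hX x (List.mem_of_mem_take hx))]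

include hmul hnil in
theorem pow_eq {g : Γ} {j : ℕ} (hj : j + 1 ≤ D)
    (hg : ∀ v : List X, v ≠ [] → v.length ≤ j → (∀ x ∈ v, x ∈ X0) → a g v = 0)
    (v : List X) (hv : v ≠ []) (hD : v.length ≤ j + 1) (hX : ∀ x ∈ v, x ∈ X0) (m : ℕ) :
    a (g ^ (m + 1)) v = ((m : ZMod N) + 1) * a g v := by
  induction m with
  | zero => simp
  | succ m ih =>
    have hl : 0 < v.length := List.length_pos_iff.2 hv
    obtain ⟨l, hl'⟩ : ∃ l, v.length = l + 1 := ⟨v.length - 1, by omega⟩
    rw [pow_succ, hmul _ _ v (by omega), Finset.sum_range_succ, List.take_length, List.drop_length,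
      hnil, mul_one, hl', Finset.sum_range_succ', List.take_zero, List.drop_zero, hnil, one_mul,
      Finset.sum_eq_zero, ih]
    · push_cast
      ring
    · intro k hk
      have hk' := Finset.mem_range.1 hk
      have hlen : (v.drop (k + 1)).length = v.length - (k + 1) := List.length_drop
      rw [hg (v.drop (k + 1)) (by intro h4; rw [h4] at hlen; simp at hlen; omega) (by omega)
        (fun x hx => hX x (List.mem_of_mem_drop hx)), mul_zero]

end

theorem resp {X : Type v} {Γ : Type u} [Group Γ] {D : ℕ} {c : Γ → List X → ℚ}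
    (h : MagnusSys X (fun k => k ≤ D) Γ c) (hint : ∀ g v, v.length ≤ D → ∃ z : ℤ, c g v = z)
    (p : ℕ) [Fact p.Prime] (S : Finset Γ) (hS : ∀ g ∈ S, g ≠ 1) :
    ∃ (K : Subgroup Γ) (_ : K.Normal), Finite (Γ ⧸ K) ∧ IsPGroup p (Γ ⧸ K) ∧
      ∀ g ∈ S, g ∉ K := by
  classical
  have hp : p.Prime := Fact.out
  choose! z hz using hint
  -- separating words
  have hsep : ∀ g ∈ S, ∃ v : List X, v.length ≤ D ∧ v ≠ [] ∧ z g v ≠ 0 := by
    intro g hg
    by_contra hcon
    push Not at hcon
    apply hS g hg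
    apply h.sep
    intro v hv
    by_cases hv0 : v = []
    · rw [hv0, h.nil, h.nil]
    · rw [magnus_one h v.length v rfl hv0 hv, hz g v hv, hcon v hv hv0]
      simp
  choose! wd hwd using hsep
  let X0 : Set X := ⋃ g ∈ S, {x | x ∈ wd g}
  have hX0 : X0.Finite := Set.Finite.biUnion S.finite_toSet (fun g _ => (wd g).finite_toSet)
  let e : ℕ := S.sup (fun g => (z g (wd g)).natAbs)
  have he : ∀ g ∈ S, (z g (wd g)).natAbs < p ^ e := by
    intro g hg
    have h1 : (z g (wd g)).natAbs ≤ e := Finset.le_sup (f := fun g => (z g (wd g)).natAbs) hg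
    exact lt_of_le_of_lt h1 (Nat.lt_pow_self hp.one_lt)
  let N : ℕ := p ^ e
  have hN : 0 < N := pow_pos hp.pos e
  haveI : NeZero N := ⟨hN.ne'⟩
  let a : Γ → List X → ZMod N := fun g v => (z g v : ZMod N)
  have hnilz : ∀ g, z g [] = 1 := by
    intro g
    have h1 := hz g [] (by simp)
    rw [h.nil] at h1
    exact_mod_cast h1.symm
  have honez : ∀ v : List X, v ≠ [] → v.length ≤ D → z 1 v = 0 := by
    intro v hv hD
    have h1 := hz 1 v hD
    rw [magnus_one h v.length v rfl hv hD] at h1
    exact_mod_cast h1.symm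
  have hmulz : ∀ g h' v, v.length ≤ D →
      z (g * h') v = ∑ i ∈ Finset.range (v.length + 1), z g (v.take i) * z h' (v.drop i) := by
    intro g h' v hD
    have h1 := h.mul g h' v hD
    rw [hz _ v hD] at h1
    have h2 : ∑ i ∈ Finset.range (v.length + 1), c g (v.take i) * c h' (v.drop i) =
        ((∑ i ∈ Finset.range (v.length + 1), z g (v.take i) * z h' (v.drop i) : ℤ) : ℚ) := by
      push_cast
      apply Finset.sum_congr rfl
      intro i _
      rw [hz g (v.take i) (by rw [List.length_take]; omega),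
        hz h' (v.drop i) (by rw [List.length_drop]; omega)]
    rw [h2] at h1
    exact_mod_cast h1
  have hnil : ∀ g, a g [] = 1 := by
    intro g
    simp only [a, hnilz g, Int.cast_one]
  have hone : ∀ v : List X, v ≠ [] → v.length ≤ D → a 1 v = 0 := by
    intro v hv hD
    simp only [a, honez v hv hD, Int.cast_zero]
  have hmul : ∀ g h' v, v.length ≤ D →
      a (g * h') v = ∑ i ∈ Finset.range (v.length + 1), a g (v.take i) * a h' (v.drop i) := by
    intro g h' v hD
    simp only [a]
    rw [hmulz g h' v hD]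
    push_cast
    rfl
  have hinv : ∀ g : Γ, (∀ v : List X, v ≠ [] → v.length ≤ D → (∀ x ∈ v, x ∈ X0) → a g v = 0) →
      ∀ v : List X, v ≠ [] → v.length ≤ D → (∀ x ∈ v, x ∈ X0) → a g⁻¹ v = 0 := by
    intro g hg v hv hD hX
    have h1 := right_eq (X0 := X0) hmul hnil g⁻¹ hg v hD hX
    rw [inv_mul_cancel] at h1
    rw [← h1]
    exact hone v hv hD
  let K : Subgroup Γ :=
    { carrier := {g | ∀ v : List X, v ≠ [] → v.length ≤ D → (∀ x ∈ v, x ∈ X0) → a g v = 0}
      mul_mem' := by
        intro g h' hg hh v hv hD hX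
        rw [right_eq (X0 := X0) hmul hnil g hh v hD hX]
        exact hg v hv hD hX
      one_mem' := fun v hv hD _ => hone v hv hD
      inv_mem' := fun {g} hg => hinv g hg }
  have hKmem : ∀ g, g ∈ K ↔ ∀ v : List X, v ≠ [] → v.length ≤ D → (∀ x ∈ v, x ∈ X0) → a g v = 0 :=
    fun g => Iff.rfl
  have hKeq : ∀ g h' : Γ, (∀ v : List X, v.length ≤ D → (∀ x ∈ v, x ∈ X0) → a g v = a h' v) →
      g⁻¹ * h' ∈ K := by
    intro g h' hgh
    rw [hKmem]
    intro v hv hD hX
    rw [← congr_right (X0 := X0) hmul (t := g⁻¹) hgh v hD hX, inv_mul_cancel]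
    exact hone v hv hD
  have hnorm : K.Normal := by
    refine ⟨fun g hg t => ?_⟩
    rw [hKmem]
    intro v hv hD hX
    have h1 : ∀ v : List X, v.length ≤ D → (∀ x ∈ v, x ∈ X0) → a (t * g) v = a t v :=
      fun v hD hX => right_eq (X0 := X0) hmul hnil t hg v hD hX
    rw [congr_left (X0 := X0) hmul (t := t⁻¹) h1 v hD hX, mul_inv_cancel]
    exact hone v hv hD
  refine ⟨K, hnorm, ?_, ?_, ?_⟩
  · -- finiteness
    have hfin : Finite {v : List X // v.length ≤ D ∧ ∀ x ∈ v, x ∈ X0} := by
      haveI : Finite X0 := hX0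
      have hf : {l : List X0 | l.length ≤ D}.Finite := List.finite_length_le X0 D
      refine ((hf.image (List.map Subtype.val)).subset ?_).to_subtype
      rintro v ⟨hD, hX⟩
      refine ⟨v.attachWith (· ∈ X0) hX, ?_, ?_⟩
      · simpa using hD
      · simp
    let φ : (Γ ⧸ K) → ({v : List X // v.length ≤ D ∧ ∀ x ∈ v, x ∈ X0} → ZMod N) :=
      fun x v => a (Quotient.out x) v.1
    refine Finite.of_injective φ ?_
    intro x y hxy
    have h1 : (Quotient.out x)⁻¹ * Quotient.out y ∈ K :=
      hKeq _ _ (fun v hD hX => congrFun hxy ⟨v, hD, hX⟩)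
    have h2 : (QuotientGroup.mk (Quotient.out x) : Γ ⧸ K) = QuotientGroup.mk (Quotient.out y) :=
      QuotientGroup.eq.2 h1
    have h3 : ∀ x : Γ ⧸ K, (QuotientGroup.mk (Quotient.out x) : Γ ⧸ K) = x :=
      fun x => Quotient.out_eq x
    rw [h3, h3] at h2
    exact h2
  · -- `p`-group
    have hpow : ∀ (g : Γ) (j : ℕ), j ≤ D →
        ∀ v : List X, v ≠ [] → v.length ≤ j → (∀ x ∈ v, x ∈ X0) → a (g ^ (N ^ j)) v = 0 := by
      intro g j
      induction j with
      | zero =>
        intro _ v hv hD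
        exact absurd (List.length_pos_iff.2 hv) (by omega)
      | succ j ih =>
        intro hj v hv hD hX
        have h1 := ih (by omega)
        have h2 := pow_eq (X0 := X0) hmul hnil hj h1 v hv hD hX (N - 1)
        have h3 : N - 1 + 1 = N := by omega
        rw [h3] at h2
        have h4 : ((N - 1 : ℕ) : ZMod N) + 1 = 0 := by
          have h5 : (((N - 1 + 1 : ℕ)) : ZMod N) = 0 := by rw [h3]; exact ZMod.natCast_self N
          rwa [Nat.cast_add, Nat.cast_one] at h5
        rw [h4, zero_mul, ← pow_mul, ← pow_succ] at h2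
        exact h2
    intro x
    obtain ⟨g, rfl⟩ := QuotientGroup.mk_surjective x
    refine ⟨e * D, ?_⟩
    rw [← QuotientGroup.mk_pow, QuotientGroup.eq_one_iff, hKmem]
    have h1 := hpow g D le_rfl
    have h2 : N ^ D = p ^ (e * D) := (pow_mul p e D).symm
    rw [h2] at h1
    exact h1
  · intro g hg hgK
    obtain ⟨h1, h2, h3⟩ := hwd g hg
    have h4 := (hKmem g).1 hgK (wd g) h2 h1 (fun x hx => Set.mem_biUnion hg hx)
    have h5 : ((N : ℕ) : ℤ) ∣ z g (wd g) := (ZMod.intCast_zmod_eq_zero_iff_dvd _ _).1 h4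
    have h6 : N ∣ (z g (wd g)).natAbs := Int.natCast_dvd.1 h5
    have h7 := Nat.le_of_dvd (Int.natAbs_pos.2 h3) h6
    exact absurd (he g hg) (not_lt.2 h7)

end Pool.Agent.Helper93.PK
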